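import Pool.Agent.Zk89.AP.Alg

/-!
# Algebraic `ℤ^d`-actions and their factors: all bounded functions, all polynomial curves

`X` is an arbitrary compact Hausdorff abelian group with its Haar probability measure `μ` and
`T_1, …, T_d` are commuting affine bijections `x ↦ α_i x · c_i` with `α_i` a continuous
homomorphism (so `α_i` is an automorphism): algebraic `ℤ^d`-actions (`c_i = 1`), rotations and
unipotent affine actions are included. No ergodicity, mixing, expansiveness, entropy, Noetherian
or metrizability assumption is made. `(Y, ν, R_1, …, R_d)` is any factor of this system.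
-/

set_option autoImplicit false

open Filter Topology MeasureTheory
open scoped ENNReal

namespace Pool.Agent.Results.MP_f720ae_an.AlgebraicCurves

/-- Each monomial of `p` contains at most one variable: `p` is a sum of polynomials in one
variable each. For `k = 1` this is every polynomial. -/
def NoMixedMonomials {k : ℕ} (p : MvPolynomial (Fin k) ℤ) : Prop :=
  ∀ s ∈ p.support, s.support.card ≤ 1

/-- `f` lies, almost everywhere, between continuous functions with arbitrarily close integrals
(for real `f`: `f` is Riemann integrable; continuous functions are an example, `u = f`, `K = 0`). -/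
def RiemannIntegrable {X : Type} [TopologicalSpace X] [MeasurableSpace X] (μ : Measure X)
    (f : X → ℂ) : Prop :=
  ∀ ε : ℝ, 0 < ε → ∃ (u : X → ℂ) (K : X → ℝ), Continuous u ∧ Continuous K ∧
    (∀ᵐ x ∂μ, ‖f x - u x‖ ≤ K x) ∧ ∫ x, K x ∂μ ≤ ε

/-- Let `T_1, …, T_d` be commuting affine bijections of a compact Hausdorff abelian group `X` with
Haar probability `μ`, let `π` be a factor map onto a measure preserving system
`(Y, ν, R_1, …, R_d)` (for example, `Y = X`, `π = id`), let `P_ij ∈ ℤ[m_1, …, m_k]` and
`f_1, …, f_n ∈ L^∞(ν)`. Suppose that for each `j`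

* no monomial of `P_1j, …, P_dj` contains more than one variable (no condition if `k = 1`), or
* `f_j ∘ π` is Riemann integrable, for example continuous (`P_1j, …, P_dj` arbitrary).

Then for almost every `y` the averages of `∏_j f_j (R_1^(P_1j(m)) ⋯ R_d^(P_dj(m)) y)` over the
boxes `[0, M_1) × ⋯ × [0, M_k)` converge as `min M_i → ∞` (unrestricted boxes).

In particular (`k = 1`): all averages
`N⁻¹ ∑_(m < N) ∏_j f_j (R_1^(P_1j(m)) ⋯ R_d^(P_dj(m)) y)`, `P_ij ∈ ℤ[m]`, `f_j ∈ L^∞`, converge
almost everywhere for these systems. -/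
theorem result (d k n : ℕ) {X Y : Type} [CommGroup X] [TopologicalSpace X]
    [IsTopologicalGroup X] [CompactSpace X] [T2Space X] [MeasurableSpace X] [BorelSpace X]
    [MeasurableSpace Y] (μ : Measure X) [μ.IsHaarMeasure] [IsProbabilityMeasure μ]
    (ν : Measure Y) (T : Fin d → Equiv.Perm X)
    (hT : ∀ i, ∃ (α : X →ₜ* X) (c : X), ∀ x, T i x = α x * c)
    (hc : ∀ i j, Commute (T i) (T j))
    (R : Fin d → Equiv.Perm Y) (hRm : ∀ i, Measurable (R i).symm)
    (hR : ∀ i, MeasurePreserving (R i) ν ν)
    (π : X → Y) (hπ : MeasurePreserving π μ ν) (hπT : ∀ i, ∀ᵐ x ∂μ, π (T i x) = R i (π x))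
    (P : Fin d → Fin n → MvPolynomial (Fin k) ℤ) (f : Fin n → Y → ℂ)
    (hf : ∀ j, MemLp (f j) ∞ ν)
    (hslot : ∀ j, (∀ i, NoMixedMonomials (P i j)) ∨ RiemannIntegrable μ (fun x => f j (π x))) :
    ∀ᵐ y ∂ν, ∃ L : ℂ, Tendsto
      (fun M : Fin k → ℕ => (∏ j, (M j : ℂ))⁻¹ *
        ∑ m ∈ Fintype.piFinset (fun j => Finset.range (M j)),
          ∏ j : Fin n, f j ((List.ofFn fun i : Fin d =>
            R i ^ (MvPolynomial.eval (fun l => ((m l : ℕ) : ℤ)) (P i j))).prod y))
      atTop (𝓝 L) :=
  Pool.Agent.Zk89.AP.alg_factor hT hc hRm hR hπ hπT P hf hslot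

end Pool.Agent.Results.MP_f720ae_an.AlgebraicCurves
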