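import Pool.Agent.Zk89.PE.Dfin

/-!
# Gaussian actions along polynomials

`IsGaussianAction μ T` (start library): `T` is an action of `ℤ^d` by invertible bi-measurable maps
preserving the probability measure `μ`, and some linear space of centered Gaussian random
variables is invariant modulo null sets under the action and generates the `σ`-algebra modulo null
sets. No assumption is made on the spectral type, on ergodicity or on mixing.

`IsFactor μ T ν R` (start library): some measure preserving `π : X → Y` satisfies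
`π (T i x) = R i (π x)` for almost every `x`.
-/

set_option autoImplicit false

open Filter Topology MeasureTheory
open scoped ENNReal

namespace Pool.Agent.Results.MP_f720ae_an.GaussianCurves

open Pool.Agent.W761.Gauss (IsGaussianAction IsFactor)

/-- The commuting invertible measure preserving maps `Δ_1, …, Δ_d` of `(D, δ)` have discrete
spectrum: finite linear combinations of bounded eigenfunctions are dense in `L¹`. (A one-point
space is an example.) -/
structure HasDiscreteSpectrum {D : Type} [MeasurableSpace D] (δ : Measure D) {d : ℕ}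
    (Δ : Fin d → Equiv.Perm D) : Prop where
  meas_symm : ∀ i, Measurable (Δ i).symm
  mp : ∀ i, MeasurePreserving (Δ i) δ δ
  comm : ∀ i j, Δ i * Δ j = Δ j * Δ i
  dense : ∀ f : D → ℂ, Measurable f → (∃ C : ℝ, ∀ x, ‖f x‖ ≤ C) → ∀ ε : ℝ, 0 < ε →
    ∃ s ∈ Submodule.span ℂ {e : D → ℂ | Measurable e ∧ (∃ C : ℝ, ∀ x, ‖e x‖ ≤ C) ∧
      ∀ i, ∃ c : Circle, ∀ᵐ x ∂δ, e (Δ i x) = c * e x}, ∫ x, ‖f x - s x‖ ∂δ ≤ ε

/-- Each monomial of `p` contains at most one variable: `p` is a sum of polynomials in one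
variable each. For `k = 1` this is every polynomial. -/
def NoMixedMonomials {k : ℕ} (p : MvPolynomial (Fin k) ℤ) : Prop :=
  ∀ s ∈ p.support, s.support.card ≤ 1

/-- The average over the box `[0, M_1) × ⋯ × [0, M_k)`. -/
noncomputable def boxAverage {k : ℕ} (M : Fin k → ℕ) (a : (Fin k → ℕ) → ℂ) : ℂ :=
  (∏ j, (M j : ℂ))⁻¹ * ∑ m ∈ Fintype.piFinset (fun j => Finset.range (M j)), a m

/-- `A_1^(P_1(m)) ⋯ A_d^(P_d(m))`, for elements `A_i` of a group and
`P_i ∈ ℤ[m_1, …, m_k]`. -/
noncomputable def polyProd {H : Type} [Group H] {d k : ℕ} (A : Fin d → H)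
    (P : Fin d → MvPolynomial (Fin k) ℤ) (m : Fin k → ℕ) : H :=
  (List.ofFn fun i : Fin d =>
    A i ^ (MvPolynomial.eval (fun l => ((m l : ℕ) : ℤ)) (P i))).prod

/-- **Gaussian actions, and their products with discrete spectrum and with arbitrary systems, along
polynomials.** Let `T` be a Gaussian action of `ℤ^d` on `(X, μ)`, let `Δ_1, …, Δ_d` be commuting
maps of `(D, δ)` with discrete spectrum (for example, of a point), and let `(Y, ν, R_1, …, R_d)` be
a factor of the product of the two systems (for example, the product, or `T` itself). Let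
`V_1, …, V_d'` be commuting invertible measure preserving maps of an **arbitrary** probability
space `(Z, ρ)` (for example, of a point). Let the `P_ji, Q_i ∈ ℤ[m_1, …, m_k]` have no mixed
monomials (for `k = 1`: arbitrary polynomials), and let `f_1, …, f_n ∈ L^∞(Y × Z)`. Then for almost
every `(y, z)` the averages of
`∏_j f_j (R_1^(P_j1(m)) ⋯ R_d^(P_jd(m)) y, V_1^(Q_1(m)) ⋯ V_d'^(Q_d'(m)) z)` over the boxes
`[0, M_1) × ⋯ × [0, M_k)` converge as `min M_i → ∞` (unrestricted boxes). -/
theorem result (d d' k n : ℕ) {D X Y Z : Type} [MeasurableSpace D] [MeasurableSpace X]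
    [MeasurableSpace Y] [MeasurableSpace Z] (δ : Measure D) [IsProbabilityMeasure δ]
    (μ : Measure X) [IsProbabilityMeasure μ] (ν : Measure Y) (ρ : Measure Z)
    [IsProbabilityMeasure ρ] (Δ : Fin d → Equiv.Perm D) (hΔ : HasDiscreteSpectrum δ Δ)
    (T : Fin d → Equiv.Perm X) (hT : IsGaussianAction μ T)
    (R : Fin d → Equiv.Perm Y) (hRm : ∀ i, Measurable (R i).symm)
    (hR : ∀ i, MeasurePreserving (R i) ν ν)
    (hfac : IsFactor (δ.prod μ) (fun i => Equiv.prodCongr (Δ i) (T i)) ν R)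
    (V : Fin d' → Equiv.Perm Z) (hVm : ∀ i, Measurable (V i).symm)
    (hV : ∀ i, MeasurePreserving (V i) ρ ρ) (hVc : ∀ i j, V i * V j = V j * V i)
    (P : Fin n → Fin d → MvPolynomial (Fin k) ℤ) (hP : ∀ j i, NoMixedMonomials (P j i))
    (Q : Fin d' → MvPolynomial (Fin k) ℤ) (hQ : ∀ i, NoMixedMonomials (Q i))
    (f : Fin n → Y × Z → ℂ) (hf : ∀ j, MemLp (f j) ∞ (ν.prod ρ)) :
    ∀ᵐ p ∂(ν.prod ρ), ∃ L : ℂ, Tendsto
      (fun M : Fin k → ℕ => boxAverage M fun m =>
        ∏ j, f j (polyProd R (P j) m p.1, polyProd V Q m p.2))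
      atTop (𝓝 L) := by
  have hD : Pool.Agent.Zk89.PE.IsDisc δ Δ := by
    refine ⟨hΔ.meas_symm, hΔ.mp, hΔ.comm, ?_⟩
    intro f hf ε hε
    obtain ⟨s, hs, hi⟩ := hΔ.dense f hf.1 hf.2 ε hε
    refine ⟨s, Submodule.span_mono ?_ hs, hi⟩
    rintro e ⟨h1, h2, h3⟩
    exact ⟨⟨h1, h2⟩, h3⟩
  exact Pool.Agent.Zk89.PE.jp_factor
    (Pool.Agent.Zk89.PE.disc_JP hD (Pool.Agent.Zk89.PE.gauss_JP hT)) hRm hR hfac hVm hV hVc
    P hP Q hQ hf

end Pool.Agent.Results.MP_f720ae_an.GaussianCurves
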