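import Pool.Agent.Zk89.KC.Dns
import Pool.Agent.Zk89.PE.KGs

/-!
# Kolmogorov actions and extensions: averages along polynomials

A group `G` acts by measure preserving bijections `Φ g` of a probability space `(X, μ)` and
`ℓ : G → ℝ` is a homomorphism. `IsKolmogorov 𝒜 𝒴 μ Φ ℓ` says that the action is a *Kolmogorov
extension of the invariant `σ`-algebra `𝒴` along `ℓ`*: `𝒜 ⊇ 𝒴` satisfies `(Φ g)⁻¹ 𝒜 ⊆ 𝒜` whenever
`ℓ g ≤ 0`, its translates generate, and its tail (the sets lying in all translates of `𝒜`) is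
contained in `𝒴`, everything modulo `μ`. For the trivial `𝒴 = ⊥` this is the `K`-property: for
`G = ℤ` and `ℓ` the inclusion it is the definition of a `K`-automorphism; Bernoulli actions of
`ℤ^r` have it for every injective `ℓ`. `IsFactor μ T ν R` (start library): some measure preserving
`π : X → Y` satisfies `π (T i x) = R i (π x)` for almost every `x`. `IsGaussianAction ω T` (start
library): `T` is a `ℤ^d`-action by invertible bi-measurable maps preserving `ω`, and some linear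
space of centered Gaussian random variables is invariant modulo null sets and generates the
`σ`-algebra modulo null sets.
-/

set_option autoImplicit false

open Filter Topology MeasureTheory
open scoped ENNReal

namespace Pool.Agent.Results.MP_f720ae_an.KolmogorovCurves

open Pool.Agent.W761.Gauss (IsFactor IsGaussianAction)

/-- Each monomial of `p` contains at most one variable: `p` is a sum of polynomials in one
variable each. For `k = 1` this is every polynomial. -/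
def NoMixedMonomials {k : ℕ} (p : MvPolynomial (Fin k) ℤ) : Prop :=
  ∀ s ∈ p.support, s.support.card ≤ 1

/-- The action `Φ` is a Kolmogorov extension of the invariant `σ`-algebra `𝒴`, along `ℓ`, with
`σ`-algebra `𝒜`. -/
structure IsKolmogorov {X G : Type} [Group G] (𝒜 𝒴 : MeasurableSpace X) [mX : MeasurableSpace X]
    (μ : Measure X) (Φ : G →* Equiv.Perm X) (ℓ : G → ℝ) : Prop where
  mp : ∀ g, MeasurePreserving (Φ g) μ μ
  hom : ∀ g h, ℓ (g * h) = ℓ g + ℓ h
  le : 𝒜 ≤ mX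
  mono : ∀ g, ℓ g ≤ 0 → 𝒜.comap (Φ g : X → X) ≤ 𝒜
  base : 𝒴 ≤ 𝒜
  inv : ∀ g, Measurable[𝒴, 𝒴] (Φ g : X → X)
  gen : ∀ B, MeasurableSet[mX] B →
    ∃ B', MeasurableSet[⨆ g, 𝒜.comap (Φ g : X → X)] B' ∧ B =ᵐ[μ] B'
  tail : ∀ B, (∀ g, MeasurableSet[𝒜.comap (Φ g : X → X)] B) →
    ∃ B', MeasurableSet[𝒴] B' ∧ B =ᵐ[μ] B'

/-- Q1 with `k = 1` for `T_1, …, T_d` and functions from the class `S`: almost everywhere
convergence of the averages of `∏_j f_j (T_1^(P_1j(m)) ⋯ T_d^(P_dj(m)) x)` over `0 ≤ m < M` for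
**all** `n`, all `P_ij ∈ ℤ[m]` and all functions `f_1, …, f_n` which satisfy `S`. -/
def ConvergesAlong {X : Type} [MeasurableSpace X] {d : ℕ} (μ : Measure X)
    (T : Fin d → Equiv.Perm X) (S : (X → ℂ) → Prop) : Prop :=
  ∀ (n : ℕ) (P : Fin d → Fin n → Polynomial ℤ) (f : Fin n → X → ℂ), (∀ j, S (f j)) →
    ∀ᵐ x ∂μ, ∃ L : ℂ, Tendsto (fun M : ℕ => (M : ℂ)⁻¹ * ∑ m ∈ Finset.range M,
      ∏ j, f j ((List.ofFn fun i => T i ^ (P i j).eval (m : ℤ)).prod x)) atTop (𝓝 L)

/-- The average over the box `[0, M_1) × ⋯ × [0, M_k)`. -/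
noncomputable def boxAverage {k : ℕ} (M : Fin k → ℕ) (a : (Fin k → ℕ) → ℂ) : ℂ :=
  (∏ j, (M j : ℂ))⁻¹ * ∑ m ∈ Fintype.piFinset (fun j => Finset.range (M j)), a m

/-- `A_1^(P_1(m)) ⋯ A_d^(P_d(m))`, for elements `A_i` of a group and
`P_i ∈ ℤ[m_1, …, m_k]`. -/
noncomputable def polyProd {H : Type} [Group H] {d k : ℕ} (A : Fin d → H)
    (P : Fin d → MvPolynomial (Fin k) ℤ) (m : Fin k → ℕ) : H :=
  (List.ofFn fun i : Fin d =>
    A i ^ (MvPolynomial.eval (fun l => ((m l : ℕ) : ℤ)) (P i))).prod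

/-- **Averages along polynomials for Kolmogorov extensions.** Let the action `Φ` of `G` be a
Kolmogorov extension of the invariant `σ`-algebra `𝒴` along `ℓ`.

**(a)** `G` abelian, `ℓ` injective, `g_1, …, g_d ∈ G`, and `(Y, ν, R_1, …, R_d)` a factor of
`(X, μ, Φ g_1, …, Φ g_d)` (for example this system itself).

* (a1) `𝒴 = ⊥` (`K`-actions). If the `P_ij ∈ ℤ[m_1, …, m_k]` have no mixed monomials (for `k = 1`:
  for all `P_ij`) and `f_j ∈ L^∞(Y)`, then for almost every `y` the averages of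
  `∏_j f_j (R_1^(P_1j(m)) ⋯ R_d^(P_dj(m)) y)` over `[0, M_1) × ⋯ × [0, M_k)` converge as
  `min M_i → ∞` (unrestricted boxes); the limit is the product of the integrals when the elements
  `s_j(m) = g_1^(P_1j(m)) ⋯ g_d^(P_dj(m))` of `G` and all `s_j(m) s_j'(m)⁻¹`, `j ≠ j'`, are
  nonconstant functions of `m`.
* (a2) If Q1 with `k = 1` holds for `Φ g_1, …, Φ g_d` and bounded `𝒴`-measurable functions, then
  it holds for `R_1, …, R_d` and all functions in `L^∞(Y)`.
* (a3) This hypothesis holds, and so does its conclusion, if `𝒴` is the `σ`-algebra of a factor on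
  a compact Hausdorff abelian group with its Haar probability on which the `Φ g_i` act by commuting
  affine bijections.
* (a4) It also holds, and so does its conclusion, if `𝒴` is the `σ`-algebra of a factor
  `(B, β, S_1, …, S_d)` of `(X, μ, Φ g_1, …, Φ g_d)` which is a factor of a Gaussian action (for
  example, a Gaussian action).

**(b)** `G` arbitrary, `k ≥ 1`, `S_j(m) = b_j h_j1^(P_j1(m_1)) ⋯ h_jk^(P_jk(m_k))`,
`P_jl ∈ ℤ[t]`, all `t ↦ ℓ(h_jl^(P_jl(t)))` nonconstant and for `i ≠ j` some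
`t ↦ ℓ(h_il^(P_il(t))) - ℓ(h_jl^(P_jl(t)))` nonconstant. Then for all `f_j ∈ L^∞(X)` the
unrestricted box averages of `∏_j f_j(S_j(m) x)` and of `∏_j E(f_j | 𝒴)(S_j(m) x)` have
difference tending to zero for almost every `x`. -/
theorem result {X G : Type} [Group G] (𝒜 𝒴 : MeasurableSpace X) [MeasurableSpace X]
    (μ : Measure X) [IsProbabilityMeasure μ] (Φ : G →* Equiv.Perm X) (ℓ : G → ℝ)
    (hK : IsKolmogorov 𝒜 𝒴 μ Φ ℓ) :
    ((∀ g h : G, g * h = h * g) → (∀ g, ℓ g = 0 → g = 1) →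
      ∀ (d : ℕ) {Y : Type} [MeasurableSpace Y] (ν : Measure Y) (g : Fin d → G)
        (R : Fin d → Equiv.Perm Y), (∀ i, Measurable (R i).symm) →
      (∀ i, MeasurePreserving (R i) ν ν) → IsFactor μ (fun i => Φ (g i)) ν R →
      (𝒴 = ⊥ → ∀ (k n : ℕ) (P : Fin n → Fin d → MvPolynomial (Fin k) ℤ),
        (∀ j i, NoMixedMonomials (P j i)) → ∀ (f : Fin n → Y → ℂ), (∀ j, MemLp (f j) ∞ ν) →
        (∀ᵐ y ∂ν, ∃ L : ℂ, Tendsto
          (fun M : Fin k → ℕ => boxAverage M fun m => ∏ j, f j (polyProd R (P j) m y))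
          atTop (𝓝 L)) ∧
        ((∀ j, ∃ m m' : Fin k → ℕ, polyProd g (P j) m ≠ polyProd g (P j) m') →
          (∀ i j, i ≠ j → ∃ m m' : Fin k → ℕ,
            polyProd g (P i) m * (polyProd g (P j) m)⁻¹ ≠
              polyProd g (P i) m' * (polyProd g (P j) m')⁻¹) →
          ∀ᵐ y ∂ν, Tendsto
            (fun M : Fin k → ℕ => boxAverage M fun m => ∏ j, f j (polyProd R (P j) m y))
            atTop (𝓝 (∏ j, ∫ y, f j y ∂ν)))) ∧
      (ConvergesAlong μ (fun i => Φ (g i))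
          (fun e => Measurable[𝒴] e ∧ ∃ C : ℝ, ∀ x, ‖e x‖ ≤ C) →
        ConvergesAlong ν R fun f => MemLp f ∞ ν) ∧
      (∀ {Z : Type} [CommGroup Z] [TopologicalSpace Z] [IsTopologicalGroup Z] [CompactSpace Z]
        [T2Space Z] [mZ : MeasurableSpace Z] [BorelSpace Z] (η : Measure Z) [η.IsHaarMeasure]
        [IsProbabilityMeasure η] (π : X → Z), MeasurePreserving π μ η → 𝒴 = mZ.comap π →
        ∀ (T : Fin d → Equiv.Perm Z), (∀ i, ∃ (α : Z →ₜ* Z) (c : Z), ∀ z, T i z = α z * c) →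
        (∀ i j, Commute (T i) (T j)) → (∀ i x, π (Φ (g i) x) = T i (π x)) →
        ConvergesAlong ν R fun f => MemLp f ∞ ν) ∧
      (∀ {W B : Type} [MeasurableSpace W] [mB : MeasurableSpace B] (ω : Measure W)
        [IsProbabilityMeasure ω] (β : Measure B) (T : Fin d → Equiv.Perm W)
        (S : Fin d → Equiv.Perm B) (π : X → B), IsGaussianAction ω T →
        (∀ i, Measurable (S i).symm) → (∀ i, MeasurePreserving (S i) β β) → IsFactor ω T β S →
        MeasurePreserving π μ β → 𝒴 = mB.comap π → (∀ i x, π (Φ (g i) x) = S i (π x)) →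
        ConvergesAlong ν R fun f => MemLp f ∞ ν)) ∧
    (∀ (k n : ℕ), 0 < k → ∀ (b : Fin n → G) (h : Fin n → Fin k → G)
        (P : Fin n → Fin k → Polynomial ℤ),
      (∀ j l, ∃ t t' : ℕ, ℓ (h j l ^ (P j l).eval (t : ℤ)) ≠
        ℓ (h j l ^ (P j l).eval (t' : ℤ))) →
      (∀ i j, i ≠ j → ∃ l, ∃ t t' : ℕ,
        ℓ (h i l ^ (P i l).eval (t : ℤ)) - ℓ (h j l ^ (P j l).eval (t : ℤ)) ≠
        ℓ (h i l ^ (P i l).eval (t' : ℤ)) - ℓ (h j l ^ (P j l).eval (t' : ℤ))) →
      ∀ (f : Fin n → X → ℂ), (∀ j, MemLp (f j) ∞ μ) →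
      ∀ᵐ x ∂μ, Tendsto
        (fun M : Fin k → ℕ => boxAverage M fun m =>
          ∏ j, f j (Φ (b j * (List.ofFn fun l => h j l ^ (P j l).eval (m l : ℤ)).prod) x) -
          ∏ j, (μ[f j | 𝒴]) (Φ (b j * (List.ofFn fun l =>
            h j l ^ (P j l).eval (m l : ℤ)).prod) x))
        atTop (𝓝 0)) := by
  have hK' : Pool.Agent.TH784.KE.KExt μ 𝒜 𝒴 Φ ℓ :=
    ⟨hK.mp, ⟨hK.hom, hK.le, hK.mono⟩, ⟨hK.base, hK.inv⟩, hK.gen, hK.tail⟩
  constructor
  · intro hcomm hinj d Y _ ν g R hRm hR hfac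
    let _ : CommGroup G := { ‹Group G› with mul_comm := hcomm }
    refine ⟨?_, ?_, ?_, ?_⟩
    · intro hbot k n P hP f hf
      subst hbot
      obtain ⟨h1, h2⟩ := Pool.Agent.Zk89.KC.part1 (G := G) hK' hinj g hRm hR hfac
        (fun i j => P j i) (fun i j => hP j i) f hf
      have e : ∀ (P : Fin d → MvPolynomial (Fin k) ℤ) (m : Fin k → ℕ), polyProd g P m =
          ∏ i, g i ^ (MvPolynomial.eval (fun l => ((m l : ℕ) : ℤ)) (P i)) := fun P m =>
        List.prod_ofFn ..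
      refine ⟨h1, fun q1 q2 => h2 (fun j => ?_) (fun i j hij => ?_)⟩
      · obtain ⟨m, m', hm⟩ := q1 j
        rw [e, e] at hm
        exact ⟨m, m', hm⟩
      · obtain ⟨m, m', hm⟩ := q2 i j hij
        refine ⟨m, m', ?_⟩
        have e2 : ∀ m : Fin k → ℕ, polyProd g (P i) m * (polyProd g (P j) m)⁻¹ =
            ∏ i', g i' ^ (MvPolynomial.eval (fun l => ((m l : ℕ) : ℤ)) (P i i' - P j i')) := by
          intro m
          rw [e, e]
          trans (∏ i', g i' ^ (MvPolynomial.eval (fun l => ((m l : ℕ) : ℤ)) (P i i'))) *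
              (∏ i', g i' ^ (MvPolynomial.eval (fun l => ((m l : ℕ) : ℤ)) (P j i')))⁻¹
          · rfl
          rw [← Finset.prod_inv_distrib, ← Finset.prod_mul_distrib]
          refine Finset.prod_congr rfl fun i' _ => ?_
          rw [map_sub, zpow_sub]
        rw [e2, e2] at hm
        exact hm
    · intro hbase
      exact Pool.Agent.Zk89.KC.part2 (G := G) hK' hinj g hbase hRm hR hfac
    · intro Z _ _ _ _ _ mZ _ η _ _ π hπ h𝒴 T hT hTc hπT
      subst h𝒴
      exact Pool.Agent.Zk89.KC.part3 (G := G) hπ hK' hinj g hT hTc hπT hRm hR hfac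
    · intro W B _ mB ω _ β T S π hT hSm hS hST hπ h𝒴 hπS
      subst h𝒴
      exact Pool.Agent.Zk89.PE.ext_along (G := G) hπ hK' hinj g
        (Pool.Agent.Zk89.PE.gauss_along hT hSm hS hST) hπS hRm hR hfac
  · intro k n hk b h P hh0 hh f hf
    exact Pool.Agent.Zk89.KC.part5 hk hK' b h P hh0 hh hf

end Pool.Agent.Results.MP_f720ae_an.KolmogorovCurves
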