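import Pool.Agent.Zk89.MT.Fn
import Pool.Agent.Zk89.QM.Riem

/-!
# Effectively mixing actions: all bounded functions, all polynomial curves; all polynomials
-/

set_option autoImplicit false
set_option linter.unusedSectionVars false

open Filter Topology MeasureTheory ProbabilityTheory
open scoped ENNReal

namespace Pool.Agent.Results.MP_f720ae_an.PolynomialCurves

/-- The measure preserving action `Φ` of the group `G` on `(X, μ)` is **effectively mixing of all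
orders** on the algebra `𝒮` of bounded measurable functions, with respect to the norm `Nm` on `𝒮`
and the size function `ρ` on `G`:

* `ρ ≥ 1` is symmetric and submultiplicative and its balls grow at most polynomially (for instance
  `ρ` the exponential of a word length of a finitely generated group, or the norm
  `max(‖g‖, ‖g⁻¹‖)` of a discrete group of matrices);
* `𝒮` is a translation invariant algebra of functions, the norm dominates the sup norm, is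
  submultiplicative up to a constant, and a translation by `g` increases it at most by the factor
  `A ρ(g)^a` (for instance smooth functions and a Sobolev norm);
* for all `r` there are `C` and `δ > 0` with
  `|∫ ∏_i f_i(Φ(p_i) x) dμ - ∏_i ∫ f_i dμ| ≤ C ∏_i Nm(f_i) M^(-δ)` whenever `f_1, …, f_r ∈ 𝒮`
  and `ρ(p_i p_j⁻¹) ≥ M` for all `i ≠ j`. -/
structure EffectivelyMixing {X G : Type} [Group G] [MeasurableSpace X] (μ : Measure X)
    (Φ : G →* Equiv.Perm X) (ρ : G → ℝ) (𝒮 : Set (X → ℂ)) (Nm : (X → ℂ) → ℝ) : Prop where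
  mp : ∀ g, MeasurePreserving (Φ g) μ μ
  ρ_one : ρ 1 = 1
  ρ_ge : ∀ g, 1 ≤ ρ g
  ρ_inv : ∀ g, ρ g⁻¹ = ρ g
  ρ_mul : ∀ g h, ρ (g * h) ≤ ρ g * ρ h
  ball : ∃ C Q : ℝ, ∀ R : ℝ, 1 ≤ R → ∀ S : Finset G, (∀ g ∈ S, ρ g ≤ R) →
    (S.card : ℝ) ≤ C * R ^ Q
  meas : ∀ f ∈ 𝒮, Measurable f
  bdd : ∀ f ∈ 𝒮, ∀ x, ‖f x‖ ≤ Nm f
  one : (fun _ => 1) ∈ 𝒮
  mul_mem : ∀ f ∈ 𝒮, ∀ g ∈ 𝒮, (fun x => f x * g x) ∈ 𝒮
  shift_mem : ∀ f ∈ 𝒮, ∀ g, (fun x => f (Φ g x)) ∈ 𝒮
  conj_mem : ∀ f ∈ 𝒮, (fun x => starRingEnd ℂ (f x)) ∈ 𝒮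
  sub_mem : ∀ f ∈ 𝒮, ∀ c : ℂ, (fun x => f x - c) ∈ 𝒮
  norms : ∃ (A : ℝ) (a : ℕ),
    (∀ f ∈ 𝒮, ∀ g ∈ 𝒮, Nm (fun x => f x * g x) ≤ A * Nm f * Nm g) ∧
    (∀ f ∈ 𝒮, ∀ g, Nm (fun x => f (Φ g x)) ≤ A * ρ g ^ a * Nm f)
  mix : ∀ r : ℕ, ∃ C δ : ℝ, 0 < δ ∧ ∀ (f : Fin r → X → ℂ) (p : Fin r → G), (∀ i, f i ∈ 𝒮) →
    ∀ M : ℝ, 1 ≤ M → (∀ i j, i ≠ j → M ≤ ρ (p i * (p j)⁻¹)) →
    ‖∫ x, ∏ i, f i (Φ (p i) x) ∂μ - ∏ i, ∫ x, f i x ∂μ‖ ≤ C * (∏ i, Nm (f i)) * M ^ (-δ)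

/-- effectively mixing of all orders on an algebra which is dense in `L¹` -/
def DenselyMixing {X G : Type} [Group G] [MeasurableSpace X] (μ : Measure X)
    (Φ : G →* Equiv.Perm X) : Prop :=
  ∃ (ρ : G → ℝ) (𝒮 : Set (X → ℂ)) (Nm : (X → ℂ) → ℝ), EffectivelyMixing μ Φ ρ 𝒮 Nm ∧
    ∀ f : X → ℂ, Measurable f → (∃ C : ℝ, ∀ x, ‖f x‖ ≤ C) → ∀ ε : ℝ, 0 < ε →
      ∃ u ∈ 𝒮, ∫ x, ‖f x - u x‖ ∂μ ≤ ε

/-- the average of `∏_j f_j(Φ(s_j(m)) x)` over the box `[0, M_1) × ⋯ × [0, M_k)` -/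
noncomputable def average {X G : Type} [Group G] (Φ : G →* Equiv.Perm X) {k n : ℕ}
    (s : Fin n → (Fin k → ℕ) → G) (f : Fin n → X → ℂ) (x : X) (M : Fin k → ℕ) : ℂ :=
  (∏ l, (M l : ℂ))⁻¹ * ∑ m ∈ Fintype.piFinset (fun l => Finset.range (M l)),
    ∏ j : Fin n, f j (Φ (s j m) x)

/-- `f` is **Riemann integrable** with respect to `𝒮`: for every `ε > 0` there are `u, h ∈ 𝒮` with
`|f - u| ≤ Re h` almost everywhere and `Re ∫ h ≤ ε`. -/
def RiemannIntegrable {X : Type} [MeasurableSpace X] (μ : Measure X) (𝒮 : Set (X → ℂ))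
    (f : X → ℂ) : Prop :=
  AEStronglyMeasurable f μ ∧ ∀ ε : ℝ, 0 < ε → ∃ u ∈ 𝒮, ∃ h ∈ 𝒮,
    (∀ᵐ x ∂μ, ‖f x - u x‖ ≤ (h x).re) ∧ (∫ x, h x ∂μ).re ≤ ε

/-- The averages of `∏_j f_j(Φ(s_j(m)) x)` over the boxes `[0, M_1) × ⋯ × [0, M_k)` converge almost
everywhere as `min M_l → ∞` (`atTop` on `ℕ^k`: unrestricted boxes); the limit is the product of the
integrals if none of the functions `s_j` and `s_j s_i⁻¹`, `i ≠ j`, is constant. -/
def Converges {X G : Type} [Group G] [MeasurableSpace X] (μ : Measure X)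
    (Φ : G →* Equiv.Perm X) {k n : ℕ} (s : Fin n → (Fin k → ℕ) → G) (f : Fin n → X → ℂ) : Prop :=
  (∀ᵐ x ∂μ, ∃ L : ℂ, Tendsto (average Φ s f x) atTop (𝓝 L)) ∧
  ((∀ j, ∃ m m', s j m ≠ s j m') →
    (∀ j i, j ≠ i → ∃ m m', s j m * (s i m)⁻¹ ≠ s j m' * (s i m')⁻¹) →
    ∀ᵐ x ∂μ, Tendsto (average Φ s f x) atTop (𝓝 (∏ j, ∫ x, f j x ∂μ)))

section proof

variable {X G : Type} [Group G] [MeasurableSpace X] {μ : Measure X} [IsProbabilityMeasure μ]
  {Φ : G →* Equiv.Perm X}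

theorem toEM [Nonempty X] {ρ : G → ℝ} {𝒮 : Set (X → ℂ)} {Nm : (X → ℂ) → ℝ}
    (h : EffectivelyMixing μ Φ ρ 𝒮 Nm) :
    ∃ (A : ℝ) (a : ℕ), 1 ≤ A ∧ Pool.Agent.Zk89.QM.EM μ Φ ρ 𝒮 Nm A a := by
  obtain ⟨A, a, h1, h2⟩ := h.norms
  have hN : ∀ f ∈ 𝒮, 0 ≤ Nm f := fun f hf =>
    (norm_nonneg _).trans (h.bdd f hf (Classical.arbitrary X))
  refine ⟨max 1 A, a, le_max_left _ _, ?_⟩
  exact
    { mp := h.mp
      ρ_one := h.ρ_one
      ρ_ge := h.ρ_ge
      ρ_inv := h.ρ_inv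
      ρ_mul := h.ρ_mul
      ball := h.ball
      meas := h.meas
      bdd := h.bdd
      one := h.one
      mul := fun f hf g hg => ⟨h.mul_mem f hf g hg, (h1 f hf g hg).trans (by
        have := hN f hf
        have := hN g hg
        have := le_max_right 1 A
        gcongr)⟩
      shift := fun f hf g => ⟨h.shift_mem f hf g, (h2 f hf g).trans (by
        have := hN f hf
        have := le_max_right 1 A
        have : 0 ≤ ρ g ^ a := pow_nonneg (by linarith [h.ρ_ge g]) _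
        gcongr)⟩
      conj := h.conj_mem
      sub := h.sub_mem
      mix := h.mix }

theorem main (hD : DenselyMixing μ Φ) {k n : ℕ} (s : Fin n → (Fin k → ℕ) → G)
    (𝒬 : Pool.Agent.Zk89.QM.PCls G) (h𝒬 : ∀ j, 𝒬.P k (s j))
    (hgood : ∀ j, Pool.Agent.Zk89.QM.GoodF μ atTop fun m => (Φ (s j m) : X → X)) :
    ∀ f : Fin n → X → ℂ, (∀ j, MemLp (f j) ∞ μ) → Converges μ Φ s f := by
  classical
  have : Nonempty X := nonempty_of_isProbabilityMeasure μ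
  obtain ⟨ρ, 𝒮, Nm, hE, hd⟩ := hD
  obtain ⟨A, a, hA, h⟩ := toEM hE
  have hd' : Pool.Agent.Zk89.QM.Dns μ 𝒮 := by
    intro f hf ε hε
    obtain ⟨u, hu, hi⟩ := hd f hf.1 hf.2 ε hε
    exact ⟨u, hu, ⟨h.meas u hu, Nm u, h.bdd u hu⟩, hi⟩
  have hmp : ∀ (j : Fin n) (m : Fin k → ℕ), MeasurePreserving (Φ (s j m)) μ μ := fun j m => h.mp _
  intro f hf
  choose F hF hFf using fun j => Pool.Agent.W761.Gauss.BM_of_memLp (hf j)
  have hae : ∀ᵐ x ∂μ, ∀ (m : Fin k → ℕ) (j : Fin n), f j (Φ (s j m) x) = F j (Φ (s j m) x) := by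
    rw [ae_all_iff]
    intro m
    rw [ae_all_iff]
    intro j
    exact (h.mp _).quasiMeasurePreserving.ae (hFf j)
  have hav : ∀ᵐ x ∂μ, ∀ M, average Φ s f x M =
      Pool.Agent.W761.Box.bxc k M fun m => ∏ j, F j (Φ (s j m) x) := by
    filter_upwards [hae] with x hx M
    unfold average Pool.Agent.W761.Box.bxc
    congr 1
    refine Finset.sum_congr rfl fun m _ => Finset.prod_congr rfl fun j _ => hx m j
  constructor
  · have h1 := Pool.Agent.Zk89.QM.linf_all (μ := μ) (𝓕 := atTop)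
      (g := fun j m => (Φ (s j m) : X → X)) hmp hgood hd' (fun F hF => by
        filter_upwards [h.conv_all hA 𝒬 F hF s h𝒬] with x hx
        obtain ⟨L, hL⟩ := hx
        exact ⟨L, hL⟩) F hF
    filter_upwards [h1, hav] with x hx hx2
    obtain ⟨L, hL⟩ := hx
    exact ⟨L, hL.congr fun M => (hx2 M).symm⟩
  · intro hne hdiff
    have hne' : ∀ j, ∀ g, ∃ m, s j m ≠ g := by
      intro j q
      by_contra hcon
      push Not at hcon
      obtain ⟨m, m', hm⟩ := hne j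
      exact hm ((hcon m).trans (hcon m').symm)
    have hdiff' : ∀ j j', j ≠ j' → ∀ g, ∃ m, s j m * (s j' m)⁻¹ ≠ g := by
      intro j j' hjj q
      by_contra hcon
      push Not at hcon
      obtain ⟨m, m', hm⟩ := hdiff j j' hjj
      exact hm ((hcon m).trans (hcon m').symm)
    have h1 := Pool.Agent.Zk89.QM.linf_prod (μ := μ) (𝓕 := atTop)
      (g := fun j m => (Φ (s j m) : X → X)) hmp hgood hd' (fun F hF => by
        filter_upwards [h.conv_prod hA 𝒬 F hF s h𝒬 hne' hdiff'] with x hx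
        exact hx) F hF
    have hint : ∏ j, ∫ x, f j x ∂μ = ∏ j, ∫ x, F j x ∂μ :=
      Finset.prod_congr rfl fun j _ => integral_congr_ae (hFf j)
    filter_upwards [h1, hav] with x hx hx2
    rw [hint]
    exact hx.congr fun M => (hx2 M).symm

theorem riem [Nonempty X] [Group.IsNilpotent G]
    (htf : ∀ g : G, ∀ n : ℕ, 0 < n → g ^ n = 1 → g = 1)
    {ρ : G → ℝ} {𝒮 : Set (X → ℂ)} {Nm : (X → ℂ) → ℝ} {A : ℝ} {a : ℕ} (hA : 1 ≤ A)
    (h : Pool.Agent.Zk89.QM.EM μ Φ ρ 𝒮 Nm A a) {d k n : ℕ} (g : Fin d → G)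
    (P : Fin d → Fin n → MvPolynomial (Fin k) ℤ) (f : Fin n → X → ℂ)
    (hf : ∀ j, RiemannIntegrable μ 𝒮 (f j)) :
    Converges μ Φ (fun j m => (List.ofFn fun i =>
      g i ^ (MvPolynomial.eval (fun l => ((m l : ℕ) : ℤ)) (P i j))).prod) f := by
  obtain ⟨𝒬, h𝒬⟩ := Pool.Agent.Zk89.QM.exists_cls htf g P
  unfold Converges
  refine ⟨h.riem_all hA 𝒬 f hf _ h𝒬, fun h1 h2 => h.riem_prod hA 𝒬 f hf _ h𝒬 ?_ ?_⟩
  · intro j q
    by_contra hcon
    push Not at hcon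
    obtain ⟨m, m', hm⟩ := h1 j
    exact hm ((hcon m).trans (hcon m').symm)
  · intro j j' hjj q
    by_contra hcon
    push Not at hcon
    obtain ⟨m, m', hm⟩ := h2 j j' hjj
    exact hm ((hcon m).trans (hcon m').symm)

end proof

/-- Let the torsion-free nilpotent group `G` act on the probability space `(X, μ)` by measure
preserving bijections, effectively mixing of all orders on an `L¹`-dense algebra of functions
(first part). Let `P_jli ∈ ℤ[t]` be **any** polynomials, `b_j, u_jli ∈ G`, and let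
`s_j(m) = b_j ∏_l g_jl(m_l)` with `g_jl(t) = u_jl1^(P_jl1(t)) ⋯ u_jld^(P_jld(t))`, where for each
`j, l` the elements `u_jl1, …, u_jld` commute. Then the averages of `∏_j f_j(Φ(s_j(m)) x)` over
the boxes `[0, M_1) × ⋯ × [0, M_k)` converge for almost every `x` as `min M_l → ∞`, for **all**
`f_1, …, f_n ∈ L^∞`; the limit is the product of the integrals if no `s_j` and no `s_j s_i⁻¹`,
`i ≠ j`, is constant.

For abelian `G`, `k = 1`, `b_j = 1`, `u_j1i = g_i` these are the averages of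
`∏_j f_j(T_1^(P_1j(m)) ⋯ T_d^(P_dj(m)) x)`, `T_i = Φ(g_i)`: all polynomials in one variable, all
`n`, all bounded functions.

The hypothesis holds for Bernoulli actions (a generating `σ`-algebra with independent
translates) of finitely generated groups (second part).

Third part: if the torsion-free nilpotent group `G` is effectively mixing of all orders on any
algebra `𝒮`, then the same holds for **any** `P_ij ∈ ℤ[m_1, …, m_k]`, any `g_1, …, g_d ∈ G`,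
`s_j(m) = g_1^(P_1j(m)) ⋯ g_d^(P_dj(m))`, and all `f_1, …, f_n` which are Riemann integrable with
respect to `𝒮`. -/
theorem result :
    (∀ {X G : Type} [Group G] [Group.IsNilpotent G] [MeasurableSpace X] (μ : Measure X)
      [IsProbabilityMeasure μ] (Φ : G →* Equiv.Perm X),
      (∀ g : G, ∀ n : ℕ, 0 < n → g ^ n = 1 → g = 1) → DenselyMixing μ Φ →
      ∀ (k n d : ℕ) (b : Fin n → G) (u : Fin n → Fin k → Fin d → G)
        (P : Fin n → Fin k → Fin d → Polynomial ℤ),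
        (∀ j l i i', u j l i * u j l i' = u j l i' * u j l i) →
        ∀ f : Fin n → X → ℂ, (∀ j, MemLp (f j) ∞ μ) →
        Converges μ Φ (fun j m => b j * (List.ofFn fun l =>
          (List.ofFn fun i => u j l i ^ ((P j l i).eval ((m l : ℕ) : ℤ))).prod).prod) f) ∧
    (∀ {X G : Type} [Group G] [Group.FG G] (𝒜 : MeasurableSpace X)
      [mX : MeasurableSpace X] (μ : Measure X) [IsProbabilityMeasure μ] (Φ : G →* Equiv.Perm X),
      (∀ g, MeasurePreserving (Φ g) μ μ) → 𝒜 ≤ mX →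
      iIndep (fun g : G => 𝒜.comap (Φ g : X → X)) μ →
      (∀ B, MeasurableSet B → ∃ B', MeasurableSet[⨆ g, 𝒜.comap (Φ g : X → X)] B' ∧ B =ᵐ[μ] B') →
      DenselyMixing μ Φ) ∧
    (∀ {X G : Type} [Group G] [Group.IsNilpotent G] [MeasurableSpace X] (μ : Measure X)
      [IsProbabilityMeasure μ] (Φ : G →* Equiv.Perm X) (ρ : G → ℝ) (𝒮 : Set (X → ℂ))
      (Nm : (X → ℂ) → ℝ), (∀ g : G, ∀ n : ℕ, 0 < n → g ^ n = 1 → g = 1) →
      EffectivelyMixing μ Φ ρ 𝒮 Nm →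
      ∀ (d k n : ℕ) (g : Fin d → G) (P : Fin d → Fin n → MvPolynomial (Fin k) ℤ)
        (f : Fin n → X → ℂ), (∀ j, RiemannIntegrable μ 𝒮 (f j)) →
        Converges μ Φ (fun j m => (List.ofFn fun i =>
          g i ^ (MvPolynomial.eval (fun l => ((m l : ℕ) : ℤ)) (P i j))).prod) f) := by
  refine ⟨?_, ?_, ?_⟩
  · intro X G _ _ _ μ _ Φ htf hD k n d b u P hu
    have : Nonempty X := nonempty_of_isProbabilityMeasure μ
    obtain ⟨𝒬, h𝒬⟩ := Pool.Agent.Zk89.MT.exists_cls_gen htf b u P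
    obtain ⟨ρ, 𝒮, Nm, hE, hd⟩ := id hD
    obtain ⟨A, a, hA, h⟩ := toEM hE
    have hd' : Pool.Agent.Zk89.QM.Dns μ 𝒮 := by
      intro f hf ε hε
      obtain ⟨v, hv, hi⟩ := hd f hf.1 hf.2 ε hε
      exact ⟨v, hv, ⟨h.meas v hv, Nm v, h.bdd v hv⟩, hi⟩
    exact main hD _ 𝒬 h𝒬 fun j =>
      Pool.Agent.Zk89.BT.good_prod hE.mp (b j)
        (fun l n => (List.ofFn fun i => u j l i ^ ((P j l i).eval (n : ℤ))).prod)
        fun l => Pool.Agent.Zk89.MT.g1_poly htf h hA hd' (u j l) (hu j l) (P j l)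
  · intro X G _ _ 𝒜 mX μ _ Φ hmp h𝒜 hind hG
    classical
    obtain ⟨S, h1, h2, h3⟩ := Pool.Agent.Zk89.QM.Bern.exists_gen G
    have hE := Pool.Agent.Zk89.QM.Bern.em h1 h2 h3 hmp h𝒜 hind
    refine ⟨_, _, _, ⟨hE.mp, hE.ρ_one, hE.ρ_ge, hE.ρ_inv, hE.ρ_mul, hE.ball, hE.meas, hE.bdd,
      hE.one, fun f hf g hg => (hE.mul f hf g hg).1, fun f hf g => (hE.shift f hf g).1, hE.conj,
      hE.sub, ⟨1, 1, fun f hf g hg => (hE.mul f hf g hg).2, fun f hf g => (hE.shift f hf g).2⟩,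
      hE.mix⟩, ?_⟩
    intro f hf1 hf2 ε hε
    obtain ⟨u, hu, -, hi⟩ := Pool.Agent.Zk89.QM.Bern.dense h1 h3 hmp h𝒜 hG f ⟨hf1, hf2⟩ ε hε
    exact ⟨u, hu, hi⟩
  · intro X G _ _ _ μ _ Φ ρ 𝒮 Nm htf h d k n g P f hf
    have : Nonempty X := nonempty_of_isProbabilityMeasure μ
    obtain ⟨A, a, hA, hE⟩ := toEM h
    exact riem htf hA hE g P f hf

end Pool.Agent.Results.MP_f720ae_an.PolynomialCurves
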